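import Pool.Agent.Y808.LB.Stm
import Pool.Agent.H40.BP.PATCH
import Pool.Agent.H40.BP.TR
import Pool.Agent.H40.BP.Bas
import Pool.Agent.H94R2.BQ.S

/-!
# STEP: descent along a chart
-/

set_option autoImplicit false

open Polynomial IsLocalRing BQ Pool.Agent.H40.BP Pool.Agent.W394.BQN

noncomputable section

namespace Pool.Agent.Y429.LB

open Pool.Agent.Y808.LB

/-- analytic isomorphisms along powers -/
theorem anPatch_pow {A R : Type} [CommRing A] [CommRing R] {ι : A →+* R} {g : A}
    (h : AnPatch ι g) (N : ℕ) : AnPatch ι (g ^ N) := by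
  refine ⟨h.inj, ?_, ?_, ?_⟩
  · intro r hr
    rw [map_pow] at hr
    induction N with
    | zero => simpa using hr
    | succ N ih =>
      apply ih
      apply h.reg
      rw [← mul_assoc, ← pow_succ']
      exact hr
  · intro r
    obtain ⟨a, c, hac⟩ := PATCHa.surj_pow h N r
    exact ⟨a, c, by rw [map_pow]; exact hac⟩
  · intro a c hac
    rw [map_pow] at hac
    obtain ⟨a', ha', -⟩ := PATCHa.sat_pow h N a c hac
    exact ⟨a', ha'⟩

/-- the punctured spectrum: all localisations of `B_f` -/
theorem af_away {B : Type} [CommRing B] [IsLocalRing B] (f : B) (hf : f ∈ maximalIdeal B)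
    (h1 : ∀ (q : Ideal B) [q.IsPrime], q ≠ maximalIdeal B → AF (Localization.AtPrime q))
    (m : ℕ) (q : Ideal (Localization.Away f)) [q.IsMaximal] :
    IdemFree (MvPolynomial (Fin m) (Localization.AtPrime q)) := by
  let p : Ideal B := q.comap (algebraMap B (Localization.Away f))
  have hp : p.IsPrime := Ideal.comap_isPrime _ _
  have hfp : f ∉ p := by
    intro h
    have h2 : algebraMap B (Localization.Away f) f ∈ q := h
    exact Ideal.IsPrime.ne_top' (Ideal.eq_top_of_isUnit_mem q h2
      (IsLocalization.Away.algebraMap_isUnit (S := Localization.Away f) f))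
  have hne : p ≠ maximalIdeal B := by
    intro h
    rw [h] at hfp
    exact hfp hf
  have h2 : IsLocalization.AtPrime (Localization.AtPrime q) p :=
    IsLocalization.isLocalization_isLocalization_atPrime_isLocalization (Submonoid.powers f)
      (Localization.AtPrime q) q
  let e : Localization.AtPrime p ≃+* Localization.AtPrime q :=
    (IsLocalization.algEquiv p.primeCompl (Localization.AtPrime p)
      (Localization.AtPrime q)).toRingEquiv
  exact IdemFree.of_equiv (MvPolynomial.mapEquiv (Fin m) e) (h1 p hne m)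

theorem t_STEP : Pool.Agent.Y808.LB.S_STEP := by
  intro B _ _ h1 hchart m n E hE
  obtain ⟨B0, _, ι, h, hAF, hpat, hm⟩ := hchart
  obtain ⟨f, hf⟩ : ∃ f, f = ι h := ⟨_, rfl⟩
  -- the localisation is injective
  have hreg : ∀ r : B, f * r = 0 → r = 0 := by
    intro r hr
    rw [hf] at hr
    exact hpat.reg r hr
  have hnz : Submonoid.powers f ≤ nonZeroDivisors B := by
    rw [Submonoid.powers_le]
    rw [mem_nonZeroDivisors_iff_right]
    intro r hr
    exact hreg r (by rw [mul_comm]; exact hr)
  have hinj : Function.Injective (algebraMap B (Localization.Away f)) :=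
    IsLocalization.injective (Localization.Away f) hnz
  -- the idempotent over the localisation
  obtain ⟨a, ha⟩ : ∃ a : MvPolynomial (Fin m) B →+* MvPolynomial (Fin m) (Localization.Away f),
    a = MvPolynomial.map (algebraMap B (Localization.Away f)) := ⟨_, rfl⟩
  obtain ⟨U, V, hUV, hVU⟩ := patch_mv m
    (fun q hq => af_away f (by rw [hf]; exact hm) h1 m q) (E.map a) (map_idem hE a)
  -- the constant part
  obtain ⟨s, U0, V0, hUV0, hVU0⟩ := idemFree_local B n
    (E.map (MvPolynomial.constantCoeff : MvPolynomial (Fin m) B →+* B)) (map_idem hE _)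
  obtain ⟨κ, hκ⟩ : ∃ κ : B →+* MvPolynomial (Fin m) (Localization.Away f),
    κ = (MvPolynomial.C : Localization.Away f →+* _).comp
      (algebraMap B (Localization.Away f)) := ⟨_, rfl⟩
  have e0 : V * U =
      (E.map (MvPolynomial.constantCoeff : MvPolynomial (Fin m) B →+* B)).map κ := by
    rw [hVU]
    ext1 i j
    rw [Matrix.map_apply, Matrix.map_apply, Matrix.map_apply, Matrix.map_apply, hκ, ha,
      RingHom.comp_apply, MvPolynomial.constantCoeff_map]
  have hsplit : Split (E.map a) := by
    refine ⟨s, U * U0.map κ, V0.map κ * V, ?_, ?_⟩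
    · have e1 : U * U0.map κ * (V0.map κ * V) = U * ((U0 * V0).map κ) * V := by
        rw [Matrix.map_mul]; simp only [Matrix.mul_assoc]
      rw [e1, hUV0, ← e0]
      have e2 : U * (V * U) * V = (U * V) * (U * V) := by simp only [Matrix.mul_assoc]
      rw [e2, hUV]
      exact map_idem hE a
    · have e1 : V0.map κ * V * (U * U0.map κ) = V0.map κ * (V * U) * U0.map κ := by
        simp only [Matrix.mul_assoc]
      rw [e1, e0, ← hUV0]
      have e2 : V0.map κ * (U0 * V0).map κ * U0.map κ = ((V0 * U0) * (V0 * U0)).map κ := by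
        simp only [Matrix.map_mul, Matrix.mul_assoc]
      rw [e2, hVU0, Matrix.one_mul]
      exact Matrix.map_one _ (map_zero _) (map_one _)
  -- constant denominators
  obtain ⟨g, ⟨N, rfl⟩, hs⟩ := splitAt_of_loc (algebraMap B (Localization.Away f)) hinj
    (Submonoid.powers f) (by
      intro z
      obtain ⟨⟨r, g⟩, hr⟩ := IsLocalization.surj (Submonoid.powers f) z
      exact ⟨g, g.2, r, by rw [mul_comm]; exact hr⟩) m E (by rw [← ha]; exact hsplit)
  have hp := t_TR B0 B ι (h ^ N) (anPatch_pow hpat N) m
  have hs' : SplitAt (MvPolynomial.map ι (MvPolynomial.C (h ^ N))) E := by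
    rw [MvPolynomial.map_C, map_pow, ← hf]
    exact hs
  obtain ⟨n', E', hE', -, himp⟩ := t_PATCH _ _ _ _ hp n E hE hs'
  exact himp (hAF m n' E' hE')

end Pool.Agent.Y429.LB
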